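import Mathlib
import Pool.Agent.Lib.MP_bb2768_gt.CL.FIN
import Pool.Agent.Lib.MP_bb2768_gt.CL.H23
import Pool.Agent.Lib.MP_bb2768_gt.CL.RFB
import Pool.Agent.Lib.MP_bb2768_gt.CL.EX

set_option autoImplicit false

open Topology Set Pool.Agent.Lib.MP_bb2768_gt Pool.Agent.Lib.MPbb2768.CL

namespace Pool.Agent.Results.MP_bb2768_gt.Classification

/-- (1) The negated form of Q1: there is a weakly pseudocompact `ℝ`-factorizable topological
group that is not precompact; it can be taken connected and abelian.
(2) Classification of the `G_δ`-dense subgroups of locally compact groups: `ℝ`-factorizable,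
weakly pseudocompact, precompact.  (3) Every `σ`-compact locally compact group is an open
homomorphic image of a weakly pseudocompact `ℝ`-factorizable group. -/
theorem result :
    (∃ (G : Type) (_ : Group G) (_ : TopologicalSpace G) (_ : IsTopologicalGroup G)
      (_ : T2Space G), WeaklyPseudocompact G ∧ RFactorizable G ∧ ¬ Precompact G) ∧
    (∃ (G : Type) (_ : CommGroup G) (_ : TopologicalSpace G) (_ : IsTopologicalGroup G)
      (_ : T2Space G),
      ConnectedSpace G ∧ WeaklyPseudocompact G ∧ RFactorizable G ∧ ¬ Precompact G) ∧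
    (∀ (L : Type) [Group L] [TopologicalSpace L] [IsTopologicalGroup L] [T2Space L]
      [LocallyCompactSpace L] (G : Subgroup L), GdDense (G : Set L) →
      (RFactorizable G ↔ SigmaCompactSpace L) ∧
      (WeaklyPseudocompact G ↔ (CompactSpace L ∨ ¬ SigmaCompactSpace L ∨ G ≠ ⊤)) ∧
      (Precompact G ↔ CompactSpace L)) ∧
    (∀ (H : Type) [Group H] [TopologicalSpace H] [IsTopologicalGroup H] [T2Space H]
      [LocallyCompactSpace H] [SigmaCompactSpace H],
      ∃ (G : Type) (_ : Group G) (_ : TopologicalSpace G) (_ : IsTopologicalGroup G)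
        (_ : T2Space G) (p : G →* H), Continuous p ∧ IsOpenMap p ∧ Function.Surjective p ∧
        WeaklyPseudocompact G ∧ RFactorizable G ∧ (Precompact G ↔ CompactSpace H) ∧
        (ConnectedSpace H → ConnectedSpace G) ∧
        ((∀ a b : H, a * b = b * a) → ∀ a b : G, a * b = b * a)) := by
  have hRFA : SpecRFA := H23.specRFA
  have hRFB : SpecRFB := specRFB
  have hWPA : SpecWPA := H23.specWPA
  have hWPB : SpecWPB := H23.specWPB
  have hPRE : SpecPRE := H23.specPRE
  have hEX : SpecEX := specEX
  have h3 := FINM.main3 hRFA hRFB hWPA hWPB hPRE hEX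
  refine ⟨?_, h3, fun L _ _ _ _ _ G hG => FINM.main1 hRFA hRFB hWPA hWPB hPRE L G hG,
    fun H _ _ _ _ _ _ => ?_⟩
  · obtain ⟨G, i1, i2, i3, i4, -, w, r, p⟩ := h3
    exact ⟨G, i1.toGroup, i2, i3, i4, w, r, p⟩
  · obtain ⟨h1, h2, h3, h4, h5, h6, h7⟩ := FINM.main2 hRFA hRFB hWPA hWPB hPRE hEX H
    refine ⟨SS H, inferInstance, inferInstance, inferInstance, inferInstance, FINM.pr H, h1, h2, h3,
      h4, h5, h6, h7, fun hc a b => ?_⟩
    refine Subtype.ext (Prod.ext (hc _ _) (mul_comm _ _))

end Pool.Agent.Results.MP_bb2768_gt.Classification
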